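import Pool.Agent.BE01.StmtsC

/-!
# Squad BE01: ALG, the algebra `L^∞` and its products
-/

namespace Pool.Agent.BE01.H72

open Set Filter Topology MeasureTheory
open scoped InnerProductSpace ENNReal

noncomputable section

variable {s : Type} [MeasurableSpace s] {μ : Measure s}

/-- Multiplication of real numbers. -/
abbrev ml : ℝ →L[ℝ] ℝ →L[ℝ] ℝ := ContinuousLinearMap.mul ℝ ℝ

theorem norm_ml : ‖ml‖ ≤ 1 := ContinuousLinearMap.opNorm_mul_le ℝ ℝ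

instance tri2 : ENNReal.HolderTriple 4 4 2 := by
  constructor
  rw [← ENNReal.toReal_eq_toReal_iff' (by simp) (by simp), ENNReal.toReal_add (by simp) (by simp)]
  simp only [ENNReal.toReal_inv, ENNReal.toReal_ofNat]
  norm_num

theorem hol_ae {p q r : ℝ≥0∞} [ENNReal.HolderTriple p q r] (f : Lp ℝ p μ) (g : Lp ℝ q μ) :
    (ml.holder r f g : Lp ℝ r μ) =ᵐ[μ] fun z => f z * g z := by
  filter_upwards [ml.coeFn_holder (r := r) f g] with z hz
  rw [hz]; rfl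

theorem hol_norm {p q r : ℝ≥0∞} [ENNReal.HolderTriple p q r] [Fact (1 ≤ p)] [Fact (1 ≤ q)]
    (f : Lp ℝ p μ) (g : Lp ℝ q μ) :
    ‖(ml.holder r f g : Lp ℝ r μ)‖ ≤ ‖f‖ * ‖g‖ := by
  have h := ml.norm_holder_apply_apply_le (r := r) f g
  have h1 : ‖ml‖ * ‖f‖ * ‖g‖ ≤ 1 * ‖f‖ * ‖g‖ := by
    have := norm_ml
    gcongr
  linarith

theorem ext_ae {p : ℝ≥0∞} {f g : Lp ℝ p μ} (h : f =ᵐ[μ] g) : f = g := Lp.ext h

/-- The function `1`. -/
def oneX [IsFiniteMeasure μ] : Lp ℝ ∞ μ := Lp.const ∞ μ (1 : ℝ)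

theorem oneX_ae [IsFiniteMeasure μ] : (oneX : Lp ℝ ∞ μ) =ᵐ[μ] fun _ => (1 : ℝ) :=
  Lp.coeFn_const ..

variable (μ) in
/-- The ring `L^∞`. -/
@[reducible] def ringX [IsFiniteMeasure μ] : NormedCommRing (Lp ℝ ∞ μ) where
  __ := (inferInstance : NormedAddCommGroup (Lp ℝ ∞ μ))
  mul f g := ml.holder ∞ f g
  one := oneX
  mul_assoc f g h := by
    apply ext_ae
    change (ml.holder ∞ (ml.holder ∞ f g : Lp ℝ ∞ μ) h : Lp ℝ ∞ μ) =ᵐ[μ]
      (ml.holder ∞ f (ml.holder ∞ g h : Lp ℝ ∞ μ) : Lp ℝ ∞ μ)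
    filter_upwards [hol_ae (r := ∞) f g, hol_ae (r := ∞) (ml.holder ∞ f g : Lp ℝ ∞ μ) h,
      hol_ae (r := ∞) g h, hol_ae (r := ∞) f (ml.holder ∞ g h : Lp ℝ ∞ μ)] with z h1 h2 h3 h4
    rw [h2, h1, h4, h3, mul_assoc]
  one_mul f := by
    apply ext_ae
    change (ml.holder ∞ (oneX : Lp ℝ ∞ μ) f : Lp ℝ ∞ μ) =ᵐ[μ] f
    filter_upwards [hol_ae (r := ∞) (oneX : Lp ℝ ∞ μ) f, oneX_ae (μ := μ)] with z h1 h2
    rw [h1, h2, one_mul]
  mul_one f := by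
    apply ext_ae
    change (ml.holder ∞ f (oneX : Lp ℝ ∞ μ) : Lp ℝ ∞ μ) =ᵐ[μ] f
    filter_upwards [hol_ae (r := ∞) f (oneX : Lp ℝ ∞ μ), oneX_ae (μ := μ)] with z h1 h2
    rw [h1, h2, mul_one]
  mul_comm f g := by
    apply ext_ae
    change (ml.holder ∞ f g : Lp ℝ ∞ μ) =ᵐ[μ] (ml.holder ∞ g f : Lp ℝ ∞ μ)
    filter_upwards [hol_ae (r := ∞) f g, hol_ae (r := ∞) g f] with z h1 h2
    rw [h1, h2, mul_comm]
  left_distrib f g h := ml.holder_add_right f g h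
  right_distrib f g h := ml.holder_add_left f g h
  zero_mul f := by
    have h := ml.holder_smul_left (r := ∞) (0 : ℝ) (0 : Lp ℝ ∞ μ) f
    rw [zero_smul, zero_smul] at h
    exact h
  mul_zero f := by
    have h := ml.holder_smul_right (r := ∞) (0 : ℝ) f (0 : Lp ℝ ∞ μ)
    rw [zero_smul, zero_smul] at h
    exact h
  norm_mul_le f g := hol_norm f g

variable (μ) in
/-- The algebra `L^∞`. -/
@[reducible] def algX [IsFiniteMeasure μ] :
    @NormedAlgebra ℝ (Lp ℝ ∞ μ) _ (ringX μ).toSeminormedCommRing.toSeminormedRing :=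
  letI := ringX μ
  { Algebra.ofModule (fun c f g => ml.holder_smul_left c f g)
      (fun c f g => ml.holder_smul_right c f g) with
    norm_smul_le := fun c f => norm_smul_le c f }

theorem bd_ae (f : Lp ℝ ∞ μ) : ∀ᵐ z ∂μ, |f z| ≤ ‖f‖ := by
  have h1 := enorm_ae_le_eLpNormEssSup f μ
  filter_upwards [h1] with z hz
  rw [← eLpNorm_exponent_top] at hz
  have h2 : ‖f‖ = (eLpNorm f ∞ μ).toReal := Lp.norm_def f
  rw [h2]
  have h3 := ENNReal.toReal_mono (Lp.eLpNorm_ne_top f) hz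
  rwa [toReal_enorm, Real.norm_eq_abs] at h3

variable [IsFiniteMeasure μ]

theorem expo {p q : ℝ≥0∞} (hq : 1 ≤ q) (hpq : q ≤ p) :
    0 ≤ 1 / q.toReal - 1 / p.toReal := by
  by_cases hp : p = ∞
  · subst hp
    simp
  · have h1 : q.toReal ≤ p.toReal := ENNReal.toReal_mono hp hpq
    have h2 : 0 < q.toReal := ENNReal.toReal_pos (by positivity) (ne_top_of_le_ne_top hp hpq)
    have := one_div_le_one_div_of_le h2 h1
    linarith

/-- The inclusion of `L^p` in `L^q`. -/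
def inc {p q : ℝ≥0∞} [Fact (1 ≤ p)] [Fact (1 ≤ q)] (hpq : q ≤ p) : Lp ℝ p μ →L[ℝ] Lp ℝ q μ :=
  LinearMap.mkContinuousOfExistsBound
    { toFun := fun f => ((Lp.memLp f).mono_exponent hpq).toLp f
      map_add' := fun f g => by
        apply ext_ae
        filter_upwards [MemLp.coeFn_toLp ((Lp.memLp (f + g)).mono_exponent hpq),
          MemLp.coeFn_toLp ((Lp.memLp f).mono_exponent hpq),
          MemLp.coeFn_toLp ((Lp.memLp g).mono_exponent hpq), Lp.coeFn_add f g,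
          Lp.coeFn_add (((Lp.memLp f).mono_exponent hpq).toLp f)
            (((Lp.memLp g).mono_exponent hpq).toLp g)] with z h1 h2 h3 h4 h5
        rw [h1, h5, h4, Pi.add_apply, Pi.add_apply, h2, h3]
      map_smul' := fun c f => by
        apply ext_ae
        filter_upwards [MemLp.coeFn_toLp ((Lp.memLp (c • f)).mono_exponent hpq),
          MemLp.coeFn_toLp ((Lp.memLp f).mono_exponent hpq), Lp.coeFn_smul c f,
          Lp.coeFn_smul c (((Lp.memLp f).mono_exponent hpq).toLp f)] with z h1 h2 h3 h4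
        rw [h1, h3, Pi.smul_apply, RingHom.id_apply, h4, Pi.smul_apply, h2] }
    ⟨(μ univ ^ (1 / q.toReal - 1 / p.toReal)).toReal, fun f => by
      change ‖((Lp.memLp f).mono_exponent hpq).toLp f‖ ≤ _
      rw [Lp.norm_toLp, Lp.norm_def, ← ENNReal.toReal_mul, mul_comm]
      refine ENNReal.toReal_mono (ENNReal.mul_ne_top (Lp.eLpNorm_ne_top f)
        (ENNReal.rpow_ne_top_of_nonneg (expo (Fact.out) hpq) (measure_ne_top _ _))) ?_
      exact eLpNorm_le_eLpNorm_mul_rpow_measure_univ hpq (Lp.aestronglyMeasurable f)⟩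

theorem inc_ae {p q : ℝ≥0∞} [Fact (1 ≤ p)] [Fact (1 ≤ q)] (hpq : q ≤ p) (f : Lp ℝ p μ) :
    inc hpq f =ᵐ[μ] f := MemLp.coeFn_toLp ((Lp.memLp f).mono_exponent hpq)

theorem inc_inj {p q : ℝ≥0∞} [Fact (1 ≤ p)] [Fact (1 ≤ q)] (hpq : q ≤ p) {f g : Lp ℝ p μ}
    (h : inc hpq f = inc hpq g) : f = g := by
  apply ext_ae
  have h1 := inc_ae hpq f
  rw [h] at h1
  exact h1.symm.trans (inc_ae hpq g)

theorem mul_ae (f g : Lp ℝ ∞ μ) :
    ((ringX μ).toMul.mul f g : Lp ℝ ∞ μ) =ᵐ[μ] fun z => f z * g z := hol_ae f g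

omit [IsFiniteMeasure μ] in
theorem hL_ae (p q r : ℝ≥0∞) [ENNReal.HolderTriple p q r] [Fact (1 ≤ p)] [Fact (1 ≤ q)]
    [Fact (1 ≤ r)] (f : Lp ℝ p μ) (g : Lp ℝ q μ) :
    ml.holderL μ p q r f g =ᵐ[μ] fun z => f z * g z := hol_ae f g

theorem one_hL {r : ℝ≥0∞} [Fact (1 ≤ r)] (f : Lp ℝ r μ) :
    ml.holderL μ ∞ r r oneX f = f := by
  apply ext_ae
  filter_upwards [hL_ae ∞ r r (oneX (μ := μ)) f, oneX_ae (μ := μ)] with z h1 h2
  rw [h1, h2, one_mul]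

theorem mul_hL {r : ℝ≥0∞} [Fact (1 ≤ r)] (x x' : Lp ℝ ∞ μ) (f : Lp ℝ r μ) :
    ml.holderL μ ∞ r r ((ringX μ).toMul.mul x x') f =
      ml.holderL μ ∞ r r x (ml.holderL μ ∞ r r x' f) := by
  apply ext_ae
  filter_upwards [hL_ae ∞ r r ((ringX μ).toMul.mul x x') f, mul_ae x x', hL_ae ∞ r r x' f,
    hL_ae ∞ r r x (ml.holderL μ ∞ r r x' f)] with z h1 h2 h3 h4
  rw [h1, h2, h4, h3, mul_assoc]

/-- The structure. -/
def AA (μ : Measure s) [IsFiniteMeasure μ] :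
    @Alg (Lp ℝ ∞ μ) (Lp ℝ 4 μ) (Lp ℝ 2 μ) (ringX μ) (algX μ) _ _ _ _ :=
  letI := ringX μ
  letI := algX μ
  { i := inc (p := ∞) (q := 4) (by simp)
    j := inc (p := 4) (q := 2) (by norm_num)
    mY := ml.holderL μ ∞ 4 4
    mH := ml.holderL μ ∞ 2 2
    B := ml.holderL μ 4 4 2
    i_inj := fun f g h => inc_inj _ h
    j_inj := fun f g h => inc_inj _ h
    one_mY := fun y => one_hL y
    one_mH := fun y => one_hL y
    mul_mY := fun x x' y => mul_hL x x' y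
    mul_mH := fun x x' y => mul_hL x x' y
    mY_i := fun x x' => by
      apply ext_ae
      change (ml.holderL μ ∞ 4 4 x (inc (p := ∞) (q := 4) _ x') : Lp ℝ 4 μ) =ᵐ[μ]
        (inc (p := ∞) (q := 4) (by simp) ((ringX μ).toMul.mul x x') : Lp ℝ 4 μ)
      have h0 : (4 : ℝ≥0∞) ≤ ∞ := by simp
      filter_upwards [hL_ae ∞ 4 4 x (inc (p := ∞) (q := 4) h0 x'), inc_ae h0 x',
        inc_ae h0 ((ringX μ).toMul.mul x x'), mul_ae x x'] with z h1 h2 h3 h4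
      rw [h1, h2, h3, h4]
    j_mY := fun x y => by
      have h0 : (2 : ℝ≥0∞) ≤ 4 := by norm_num
      apply ext_ae
      change (inc (p := 4) (q := 2) h0 (ml.holderL μ ∞ 4 4 x y) : Lp ℝ 2 μ) =ᵐ[μ]
        (ml.holderL μ ∞ 2 2 x (inc (p := 4) (q := 2) h0 y) : Lp ℝ 2 μ)
      filter_upwards [inc_ae h0 (ml.holderL μ ∞ 4 4 x y), hL_ae ∞ 4 4 x y,
        hL_ae ∞ 2 2 x (inc (p := 4) (q := 2) h0 y), inc_ae h0 y] with z h1 h2 h3 h4
      rw [h1, h2, h3, h4]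
    B_symm := fun y y' => by
      apply ext_ae
      filter_upwards [hL_ae 4 4 2 y y', hL_ae 4 4 2 y' y] with z h1 h2
      rw [h1, h2, mul_comm]
    B_i := fun x y => by
      have h0 : (2 : ℝ≥0∞) ≤ 4 := by norm_num
      have h0' : (4 : ℝ≥0∞) ≤ ∞ := by simp
      apply ext_ae
      change (ml.holderL μ 4 4 2 (inc (p := ∞) (q := 4) h0' x) y : Lp ℝ 2 μ) =ᵐ[μ]
        (ml.holderL μ ∞ 2 2 x (inc (p := 4) (q := 2) h0 y) : Lp ℝ 2 μ)
      filter_upwards [hL_ae 4 4 2 (inc (p := ∞) (q := 4) h0' x) y, inc_ae h0' x,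
        hL_ae ∞ 2 2 x (inc (p := 4) (q := 2) h0 y), inc_ae h0 y] with z h1 h2 h3 h4
      rw [h1, h2, h3, h4]
    B_mY := fun x y y' => by
      apply ext_ae
      change (ml.holderL μ 4 4 2 (ml.holderL μ ∞ 4 4 x y) y' : Lp ℝ 2 μ) =ᵐ[μ]
        (ml.holderL μ ∞ 2 2 x (ml.holderL μ 4 4 2 y y') : Lp ℝ 2 μ)
      filter_upwards [hL_ae 4 4 2 (ml.holderL μ ∞ 4 4 x y) y', hL_ae ∞ 4 4 x y,
        hL_ae ∞ 2 2 x (ml.holderL μ 4 4 2 y y'), hL_ae 4 4 2 y y'] with z h1 h2 h3 h4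
      rw [h1, h2, h3, h4, mul_assoc]
    nY := fun x y => hol_norm x y
    nH := fun x y => hol_norm x y
    nB := fun x y => hol_norm x y }

theorem e_ae (x : Lp ℝ ∞ μ) :
    (@Alg.e _ _ _ (ringX μ) (algX μ) _ _ _ _ (AA μ)) x =ᵐ[μ] x := by
  have h0 : (2 : ℝ≥0∞) ≤ 4 := by norm_num
  have h0' : (4 : ℝ≥0∞) ≤ ∞ := by simp
  change (inc (p := 4) (q := 2) h0 (inc (p := ∞) (q := 4) h0' x) : Lp ℝ 2 μ) =ᵐ[μ] x
  exact (inc_ae h0 _).trans (inc_ae h0' x)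

/-- ALG. -/
theorem alg : AlgStmt := by
  intro s _ μ _
  refine ⟨Lp ℝ ∞ μ, ringX μ, algX μ, inferInstance, AA μ, ?_, ?_, ?_, ?_, ?_⟩
  · intro x
    filter_upwards [e_ae x, bd_ae x] with z h1 h2
    rw [h1]
    exact h2
  · intro h C hC hb
    have hm : MemLp h ∞ μ := memLp_top_of_bound (Lp.aestronglyMeasurable h) C
      (by simpa only [Real.norm_eq_abs] using hb)
    refine ⟨hm.toLp h, ?_, ?_⟩
    · apply ext_ae
      exact (e_ae (hm.toLp h)).trans (MemLp.coeFn_toLp hm)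
    · change ‖hm.toLp h‖ ≤ C
      have h1 := Lp.norm_le_of_ae_bound (f := hm.toLp h) hC (by
        filter_upwards [MemLp.coeFn_toLp hm, hb] with z h1 h2
        rw [h1, Real.norm_eq_abs]
        exact h2)
      simpa using h1
  · intro x x'
    filter_upwards [e_ae ((ringX μ).toMul.mul x x'), e_ae x, e_ae x', mul_ae x x']
      with z h1 h2 h3 h4
    rw [h2, h3, ← h4, ← h1]
    rfl
  · filter_upwards [e_ae (oneX : Lp ℝ ∞ μ), oneX_ae (μ := μ)] with z h1 h2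
    rw [← h2, ← h1]
    rfl
  · intro y
    exact inc_ae (by norm_num) y

end

end Pool.Agent.BE01.H72
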