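import Pool.Agent.BE01.StmtsC

/-!
# Squad BE01: HSC, bounded operators from `L^2` to `L^∞` are compact on `L^2`
-/

namespace Pool.Agent.BE01.H72

open Set Filter Topology MeasureTheory
open scoped InnerProductSpace ENNReal

noncomputable section

theorem sum_sq_le {ι : Type*} [Fintype ι] (v : ι → ℝ) (C : ℝ) (hC : 0 ≤ C)
    (h : ∀ q : ι → ℚ, |∑ i, (q i : ℝ) * v i| ≤ C * √(∑ i, (q i : ℝ) ^ 2)) :
    ∑ i, v i ^ 2 ≤ C ^ 2 := by
  have h' : ∀ w : ι → ℝ, |∑ i, w i * v i| ≤ C * √(∑ i, w i ^ 2) := by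
    have hd : DenseRange (fun q : ι → ℚ => fun i => ((q i : ℚ) : ℝ)) :=
      DenseRange.piMap (fun _ => Rat.denseRange_cast)
    intro w
    refine hd.induction_on (p := fun w : ι → ℝ => |∑ i, w i * v i| ≤ C * √(∑ i, w i ^ 2)) w ?_ h
    exact isClosed_le (by fun_prop) (by fun_prop)
  have h1 := h' v
  have h2 : ∑ i, v i * v i = ∑ i, v i ^ 2 := Finset.sum_congr rfl fun i _ => by ring
  have h0 : 0 ≤ ∑ i, v i ^ 2 := Finset.sum_nonneg fun i _ => sq_nonneg _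
  rw [h2, abs_of_nonneg h0] at h1
  have h3 : √(∑ i, v i ^ 2) * √(∑ i, v i ^ 2) = ∑ i, v i ^ 2 := Real.mul_self_sqrt h0
  have h4 : √(∑ i, v i ^ 2) ≤ C := by
    by_contra hc
    push Not at hc
    have hp : 0 < √(∑ i, v i ^ 2) := lt_of_le_of_lt hC hc
    have : C * √(∑ i, v i ^ 2) < √(∑ i, v i ^ 2) * √(∑ i, v i ^ 2) :=
      mul_lt_mul_of_pos_right hc hp
    linarith
  calc ∑ i, v i ^ 2 = √(∑ i, v i ^ 2) ^ 2 := by rw [sq, h3]
    _ ≤ C ^ 2 := by gcongr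

variable {s : Type} [MeasurableSpace s] {μ : Measure s}

theorem ae_sum_sq (T : Lp ℝ 2 μ →L[ℝ] Lp ℝ 2 μ) (C : ℝ) (hC : 0 ≤ C)
    (h : ∀ f, ∀ᵐ z ∂μ, |T f z| ≤ C * ‖f‖) {ι : Type*} [Fintype ι] (e : ι → Lp ℝ 2 μ)
    (he : Orthonormal ℝ e) : ∀ᵐ z ∂μ, ∑ i, (T (e i) z) ^ 2 ≤ C ^ 2 := by
  have h1 : ∀ᵐ z ∂μ, ∀ q : ι → ℚ, |T (∑ i, (q i : ℝ) • e i) z| ≤
      C * ‖∑ i, (q i : ℝ) • e i‖ := by
    rw [ae_all_iff]
    exact fun q => h _
  have h2 : ∀ᵐ z ∂μ, ∀ q : ι → ℚ, T (∑ i, (q i : ℝ) • e i) z =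
      ∑ i, (q i : ℝ) * T (e i) z := by
    rw [ae_all_iff]
    intro q
    rw [map_sum]
    have h3 : (∑ i, T ((q i : ℝ) • e i) : Lp ℝ 2 μ) =ᵐ[μ] ∑ i, ⇑(T ((q i : ℝ) • e i)) :=
      Lp.coeFn_finsetSum _ _
    have h4 : ∀ᵐ z ∂μ, ∀ i, T ((q i : ℝ) • e i) z = (q i : ℝ) * T (e i) z := by
      rw [ae_all_iff]
      intro i
      rw [map_smul]
      filter_upwards [Lp.coeFn_smul (q i : ℝ) (T (e i))] with z hz
      rw [hz]; rfl
    filter_upwards [h3, h4] with z hz hz4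
    rw [hz, Finset.sum_apply]
    exact Finset.sum_congr rfl fun i _ => hz4 i
  filter_upwards [h1, h2] with z hz1 hz2
  refine sum_sq_le (fun i => T (e i) z) C hC fun q => ?_
  have h5 := hz1 q
  rw [hz2 q] at h5
  have h6 : ‖∑ i, (q i : ℝ) • e i‖ = √(∑ i, (q i : ℝ) ^ 2) := by
    rw [@norm_eq_sqrt_real_inner]
    congr 1
    rw [he.inner_sum]
    exact Finset.sum_congr rfl fun i _ => by simp [sq]
  rwa [h6] at h5

theorem norm_sq_eq (f : Lp ℝ 2 μ) : ‖f‖ ^ 2 = ∫ z, (f z) ^ 2 ∂μ := by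
  rw [← real_inner_self_eq_norm_sq, L2.inner_def]
  refine integral_congr_ae (Eventually.of_forall fun z => ?_)
  simp [sq]

theorem int_sq (f : Lp ℝ 2 μ) : Integrable (fun z => (f z) ^ 2) μ :=
  (Lp.memLp f).integrable_sq

theorem sum_norm_le [IsFiniteMeasure μ] (T : Lp ℝ 2 μ →L[ℝ] Lp ℝ 2 μ) (C : ℝ) (hC : 0 ≤ C)
    (h : ∀ f, ∀ᵐ z ∂μ, |T f z| ≤ C * ‖f‖) {ι : Type*} [Fintype ι] (e : ι → Lp ℝ 2 μ)
    (he : Orthonormal ℝ e) : ∑ i, ‖T (e i)‖ ^ 2 ≤ C ^ 2 * μ.real univ := by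
  have h1 := ae_sum_sq T C hC h e he
  calc ∑ i, ‖T (e i)‖ ^ 2 = ∑ i, ∫ z, (T (e i) z) ^ 2 ∂μ :=
        Finset.sum_congr rfl fun i _ => norm_sq_eq _
    _ = ∫ z, ∑ i, (T (e i) z) ^ 2 ∂μ := (integral_finsetSum _ fun i _ => int_sq _).symm
    _ ≤ ∫ z, C ^ 2 ∂μ := by
        refine integral_mono_ae (integrable_finsetSum _ fun i _ => int_sq _)
          (integrable_const _) h1
    _ = C ^ 2 * μ.real univ := by
        rw [integral_const, smul_eq_mul, mul_comm]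

theorem sqrt_aux (a b x e : ℝ) (hx : 0 ≤ x) (he : 0 ≤ e) (ha : a ≤ x ^ 2) (hb : b ≤ e ^ 2) :
    √a * √b ≤ e * x := by
  have h1 : √a ≤ x := by
    rw [← Real.sqrt_sq hx]
    exact Real.sqrt_le_sqrt ha
  have h2 : √b ≤ e := by
    rw [← Real.sqrt_sq he]
    exact Real.sqrt_le_sqrt hb
  calc √a * √b ≤ x * e := mul_le_mul h1 h2 (Real.sqrt_nonneg _) hx
    _ = e * x := mul_comm _ _

/-- HSC. -/
theorem hsc : HscStmt := by
  classical
  intro s _ μ _ T C hC h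
  obtain ⟨w, b, -⟩ := exists_hilbertBasis ℝ (Lp ℝ 2 μ)
  have hsum : Summable fun i => ‖T (b i)‖ ^ 2 := by
    refine summable_of_sum_le (c := C ^ 2 * μ.real univ) (fun i => by positivity) fun F => ?_
    have h1 := sum_norm_le T C hC h (fun i : F => b i)
      (b.orthonormal.comp _ Subtype.val_injective)
    rwa [Finset.sum_coe_sort F (fun i => ‖T (b i)‖ ^ 2)] at h1
  let TF : Finset w → Lp ℝ 2 μ →L[ℝ] Lp ℝ 2 μ := fun F =>
    ∑ i ∈ F, (innerSL ℝ (b i)).smulRight (T (b i))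
  have hTF : ∀ F x, TF F x = ∑ i ∈ F, ⟪b i, x⟫_ℝ • T (b i) := by
    intro F x
    simp [TF]
  have hTx : ∀ x, HasSum (fun i => ⟪b i, x⟫_ℝ • T (b i)) (T x) := by
    intro x
    have h1 := (b.hasSum_repr x).mapL T
    simpa [b.repr_apply_apply] using h1
  have hlim : Tendsto TF atTop (𝓝 T) := by
    rw [Metric.tendsto_nhds]
    intro ε hε
    obtain ⟨F, hF⟩ := summable_iff_vanishing_norm.1 hsum ((ε / 2) ^ 2) (by positivity)
    filter_upwards [eventually_ge_atTop F] with G hG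
    rw [dist_comm, dist_eq_norm]
    refine lt_of_le_of_lt (b := ε / 2) ?_ (by linarith)
    refine ContinuousLinearMap.opNorm_le_bound _ (by positivity) fun x => ?_
    have h2 : Tendsto (fun K : Finset w => (∑ i ∈ K, ⟪b i, x⟫_ℝ • T (b i)) - TF G x) atTop
        (𝓝 (T x - TF G x)) := (hTx x).sub_const _
    rw [sub_apply]
    refine le_of_tendsto h2.norm ?_
    filter_upwards [eventually_ge_atTop G] with K hK
    rw [hTF, ← Finset.sum_sdiff_eq_sub hK]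
    have hd : Disjoint (K \ G) F := by
      rw [Finset.disjoint_left]
      intro i hi hi'
      exact (Finset.mem_sdiff.1 hi).2 (hG hi')
    have h3 := hF _ hd
    rw [Real.norm_of_nonneg (Finset.sum_nonneg fun i _ => by positivity)] at h3
    have h4 : ∑ i ∈ K \ G, ⟪b i, x⟫_ℝ ^ 2 ≤ ‖x‖ ^ 2 := by
      have h5 := b.orthonormal.sum_inner_products_le (x := x) (s := K \ G)
      simpa using h5
    calc ‖∑ i ∈ K \ G, ⟪b i, x⟫_ℝ • T (b i)‖
        ≤ ∑ i ∈ K \ G, ‖⟪b i, x⟫_ℝ • T (b i)‖ := norm_sum_le _ _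
      _ = ∑ i ∈ K \ G, |⟪b i, x⟫_ℝ| * ‖T (b i)‖ :=
          Finset.sum_congr rfl fun i _ => by rw [norm_smul, Real.norm_eq_abs]
      _ ≤ √(∑ i ∈ K \ G, |⟪b i, x⟫_ℝ| ^ 2) * √(∑ i ∈ K \ G, ‖T (b i)‖ ^ 2) :=
          Real.sum_mul_le_sqrt_mul_sqrt _ _ _
      _ ≤ ε / 2 * ‖x‖ := sqrt_aux _ _ _ _ (norm_nonneg _) (half_pos hε).le
          (by simpa only [sq_abs] using h4) h3.le
  refine isCompactOperator_of_tendsto hlim (Eventually.of_forall fun F => ?_)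
  have h6 : ∀ F : Finset w, IsCompactOperator (TF F) := by
    intro F
    induction F using Finset.induction_on with
    | empty =>
      have : (TF ∅ : Lp ℝ 2 μ → Lp ℝ 2 μ) = 0 := by
        funext x
        simp [hTF]
      rw [this]
      exact isCompactOperator_zero
    | insert i F hi ih =>
      have h7 : (TF (insert i F) : Lp ℝ 2 μ → Lp ℝ 2 μ) =
          (fun x => ⟪b i, x⟫_ℝ • T (b i)) + TF F := by
        funext x
        simp [hTF, Finset.sum_insert hi]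
      rw [h7]
      refine IsCompactOperator.add ?_ ih
      have h8 : IsCompactOperator (innerSL ℝ (b i) : Lp ℝ 2 μ →L[ℝ] ℝ) := by
        refine ⟨Metric.closedBall 0 (‖b i‖ + 1), isCompact_closedBall _ _, ?_⟩
        refine Filter.mem_of_superset (Metric.ball_mem_nhds 0 one_pos) fun x hx => ?_
        simp only [mem_preimage, Metric.mem_closedBall, dist_zero_right]
        have hx' : ‖x‖ < 1 := by simpa using hx
        calc ‖innerSL ℝ (b i) x‖ ≤ ‖b i‖ * ‖x‖ := by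
              simpa using norm_inner_le_norm (𝕜 := ℝ) (b i) x
          _ ≤ ‖b i‖ * 1 := by gcongr
          _ ≤ ‖b i‖ + 1 := by linarith
      exact h8.clm_comp ((ContinuousLinearMap.toSpanSingleton ℝ (T (b i))))
  exact h6 F

end

end Pool.Agent.BE01.H72
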