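import Pool.Agent.Helper72_BE01.Asy

/-!
# Squad BE01, part S: AMP, bounds for the solution
-/

namespace Pool.Agent.BE01.H72

open Set Filter Topology MeasureTheory

noncomputable section

/-- The amplitude is close to `1` for large frequencies. -/
theorem amp_bd {c ω r0 r1 : ℝ} {θ ρ : ℝ → ℝ} (h0 : 0 < r0) (h1 : r0 < r1) (hω : 1 ≤ ω)
    (hω2 : |c| * (r1 - r0) / (2 * r0 ^ 2 * Real.log 2) ≤ ω)
    (hP : Pru c ω r0 r1 θ ρ) (r : ℝ) (hr : r ∈ Icc r0 r1) : 1 / 2 ≤ ρ r ∧ ρ r ≤ 2 := by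
  have hω0 : 0 < ω := by linarith
  have hlog : 0 < Real.log 2 := Real.log_pos (by norm_num)
  rcases eq_or_lt_of_le hr.1 with h | h
  · rw [← h, hP.ρ0]
    norm_num
  have hc : ContinuousOn (fun r => Real.log (ρ r)) (Icc r0 r) :=
    ContinuousOn.log (hP.cρ.mono (Icc_subset_Icc le_rfl hr.2))
      fun s hs => (hP.pos s ⟨hs.1, hs.2.trans hr.2⟩).ne'
  obtain ⟨ξ, hξ, e⟩ := exists_hasDerivAt_eq_slope (fun r => Real.log (ρ r))
    (fun r => c / (2 * ω * r ^ 2) * Real.sin (2 * θ r)) h hc (fun s hs => by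
      have hs' : s ∈ Ioo r0 r1 := ⟨hs.1, lt_of_lt_of_le hs.2 hr.2⟩
      have hp := hP.pos s (Ioo_subset_Icc_self hs')
      refine ((hP.dρ s hs').log hp.ne').congr_deriv ?_
      field_simp)
  have hξ0 : 0 < ξ := lt_trans h0 hξ.1
  have hb : |c / (2 * ω * ξ ^ 2) * Real.sin (2 * θ ξ)| ≤ |c| / (2 * ω * r0 ^ 2) := by
    rw [abs_mul, abs_div, abs_of_pos (show 0 < 2 * ω * ξ ^ 2 by positivity)]
    have := hξ.1.le
    calc |c| / (2 * ω * ξ ^ 2) * |Real.sin (2 * θ ξ)| ≤ |c| / (2 * ω * r0 ^ 2) * 1 := by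
          have := Real.abs_sin_le_one (2 * θ ξ)
          gcongr
      _ = _ := mul_one _
  have hlr : |Real.log (ρ r)| ≤ Real.log 2 := by
    have e2 : Real.log (ρ r) = c / (2 * ω * ξ ^ 2) * Real.sin (2 * θ ξ) * (r - r0) := by
      rw [e, hP.ρ0, Real.log_one]
      have : r - r0 ≠ 0 := (sub_pos.2 h).ne'
      field_simp
      ring
    rw [e2, abs_mul, abs_of_pos (sub_pos.2 h)]
    calc |c / (2 * ω * ξ ^ 2) * Real.sin (2 * θ ξ)| * (r - r0)
        ≤ |c| / (2 * ω * r0 ^ 2) * (r1 - r0) := by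
          have := hr.2
          have h3 : 0 ≤ r - r0 := (sub_pos.2 h).le
          gcongr
      _ ≤ Real.log 2 := by
          rw [div_le_iff₀ (by positivity)] at hω2
          rw [div_mul_eq_mul_div, div_le_iff₀ (by positivity)]
          linarith
  have hp := hP.pos r hr
  rw [abs_le] at hlr
  constructor
  · have h4 : Real.log (1 / 2) ≤ Real.log (ρ r) := by
      rw [one_div, Real.log_inv]
      exact hlr.1
    exact (Real.log_le_log_iff (by norm_num) hp).1 h4
  · exact (Real.log_le_log_iff hp (by norm_num)).1 hlr.2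

/-- AMP. -/
theorem amp : AmpStmt := by
  intro c r0 r1 h0 h1
  have hL : 0 < r1 - r0 := sub_pos.2 h1
  set N : ℝ := 2 * 1 + (0 + 2 * 1 * (|c| / r0 ^ 2)) * (r1 - r0) with hN
  have hN0 : 0 < N := by positivity
  refine ⟨64 / (r1 - r0), by positivity,
    max 1 (max (|c| * (r1 - r0) / (2 * r0 ^ 2 * Real.log 2)) (N / (r1 - r0))),
    le_max_left _ _, fun ω θ ρ hω hP r hr => ?_⟩
  have hω1 : 1 ≤ ω := (le_max_left _ _).trans hω
  have hω2 := ((le_max_left _ _).trans (le_max_right _ _)).trans hω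
  have hω3 := ((le_max_right _ _).trans (le_max_right _ _)).trans hω
  have hω0 : 0 < ω := by linarith
  have hamp := amp_bd h0 h1 hω1 hω2 hP
  have cs : ContinuousOn (fun s => Real.sin (θ s)) (Icc r0 r1) :=
    Real.continuous_sin.comp_continuousOn hP.cθ
  have cc : ContinuousOn (fun s => Real.cos (2 * θ s)) (Icc r0 r1) :=
    Real.continuous_cos.comp_continuousOn (continuousOn_const.mul hP.cθ)
  have h2 := trick h0 h1 hω1 hP (fun _ => 1) (fun _ => 0) 1 0 (fun r _ => hasDerivAt_const r 1)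
    continuousOn_const (fun r _ => by simp) (fun r _ => by simp)
  simp only [one_mul] at h2
  have h3 : ∫ s in r0..r1, (1 / 8 - 1 / 8 * Real.cos (2 * θ s)) ≤
      ∫ s in r0..r1, (ρ s * Real.sin (θ s)) ^ 2 := by
    refine intervalIntegral.integral_mono_on h1.le ?_ ?_ fun s hs => ?_
    · exact (continuousOn_const.sub (continuousOn_const.mul cc)).intervalIntegrable_of_Icc h1.le
    · exact ((hP.cρ.mul cs).pow 2).intervalIntegrable_of_Icc h1.le
    · have hh := (hamp s hs).1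
      have e1 : 1 / 8 - 1 / 8 * Real.cos (2 * θ s) = (1 / 2 * Real.sin (θ s)) ^ 2 := by
        rw [Real.cos_two_mul, Real.cos_sq']
        ring
      rw [e1, mul_pow, mul_pow]
      gcongr
  have h4 : ∫ s in r0..r1, (1 / 8 - 1 / 8 * Real.cos (2 * θ s)) =
      1 / 8 * (r1 - r0) - 1 / 8 * ∫ s in r0..r1, Real.cos (2 * θ s) := by
    rw [intervalIntegral.integral_sub intervalIntegrable_const
      ((cc.intervalIntegrable_of_Icc h1.le).const_mul _), intervalIntegral.integral_const,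
      intervalIntegral.integral_const_mul, smul_eq_mul]
    ring
  have h5 : ∫ s in r0..r1, Real.cos (2 * θ s) ≤ (r1 - r0) / 2 := by
    refine (le_abs_self _).trans (h2.trans ?_)
    rw [div_le_iff₀ hL] at hω3
    rw [div_le_iff₀ (by positivity)]
    have : N = 2 * 1 + (0 + 2 * 1 * (|c| / r0 ^ 2)) * (r1 - r0) := hN
    rw [← this]
    linarith
  have h6 : (r1 - r0) / 16 ≤ ∫ s in r0..r1, (ρ s * Real.sin (θ s)) ^ 2 := by
    linarith
  have h7 : (ρ r * Real.sin (θ r)) ^ 2 ≤ 4 := by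
    rw [mul_pow]
    have a1 : ρ r ^ 2 ≤ 2 ^ 2 := by
      have := (hamp r hr).1
      have := (hamp r hr).2
      gcongr
    have a2 : Real.sin (θ r) ^ 2 ≤ 1 := Real.sin_sq_le_one _
    nlinarith [sq_nonneg (ρ r), sq_nonneg (Real.sin (θ r))]
  calc (ρ r * Real.sin (θ r)) ^ 2 ≤ 4 := h7
    _ = 64 / (r1 - r0) * ((r1 - r0) / 16) := by field_simp; norm_num
    _ ≤ 64 / (r1 - r0) * ∫ s in r0..r1, (ρ s * Real.sin (θ s)) ^ 2 := by gcongr

end

end Pool.Agent.BE01.H72
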