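import Pool.Agent.BE01.StmtsS

/-!
# Squad BE01, part S: ASY and AMP, the phase and the amplitude of Prüfer
-/

namespace Pool.Agent.BE01.H72

open Set Filter Topology MeasureTheory

noncomputable section

/-- The integral of `V cos (2 θ)` is small: integration by parts. -/
theorem trick {c ω r0 r1 : ℝ} {θ ρ : ℝ → ℝ} (h0 : 0 < r0) (h1 : r0 < r1) (hω : 1 ≤ ω)
    (hP : Pru c ω r0 r1 θ ρ) (V V' : ℝ → ℝ) (A A' : ℝ)
    (dV : ∀ r ∈ Icc r0 r1, HasDerivAt V (V' r) r) (cV' : ContinuousOn V' (Icc r0 r1))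
    (bV : ∀ r ∈ Icc r0 r1, |V r| ≤ A) (bV' : ∀ r ∈ Icc r0 r1, |V' r| ≤ A') :
    |∫ r in r0..r1, V r * Real.cos (2 * θ r)| ≤
      (2 * A + (A' + 2 * A * (|c| / r0 ^ 2)) * (r1 - r0)) / (2 * ω) := by
  have hω0 : 0 < ω := by linarith
  have cθ := hP.cθ
  have cV : ContinuousOn V (Icc r0 r1) := fun r hr => (dV r hr).continuousAt.continuousWithinAt
  have cq : ContinuousOn (fun r : ℝ => c / (ω * r ^ 2)) (Icc r0 r1) := by
    refine ContinuousOn.div continuousOn_const (by fun_prop) fun r hr => ?_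
    have : 0 < r := lt_of_lt_of_le h0 hr.1
    positivity
  set G : ℝ → ℝ := fun r => V' r * Real.sin (2 * θ r) -
    2 * V r * Real.cos (2 * θ r) * (c / (ω * r ^ 2) * Real.sin (θ r) ^ 2) with hG
  have cG : ContinuousOn G (Icc r0 r1) := by
    refine ContinuousOn.sub (cV'.mul (Real.continuous_sin.comp_continuousOn (continuousOn_const.mul cθ)))
      (ContinuousOn.mul (ContinuousOn.mul (continuousOn_const.mul cV)
        (Real.continuous_cos.comp_continuousOn (continuousOn_const.mul cθ)))
        (cq.mul ((Real.continuous_sin.comp_continuousOn cθ).pow 2)))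
  have cC : ContinuousOn (fun r => V r * Real.cos (2 * θ r)) (Icc r0 r1) :=
    cV.mul (Real.continuous_cos.comp_continuousOn (continuousOn_const.mul cθ))
  have iG : IntervalIntegrable G volume r0 r1 := cG.intervalIntegrable_of_Icc h1.le
  have iC : IntervalIntegrable (fun r => V r * Real.cos (2 * θ r)) volume r0 r1 :=
    cC.intervalIntegrable_of_Icc h1.le
  have hF : ∫ r in r0..r1, (2 * ω * (V r * Real.cos (2 * θ r)) + G r) =
      V r1 * Real.sin (2 * θ r1) - V r0 * Real.sin (2 * θ r0) := by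
    refine intervalIntegral.integral_eq_sub_of_hasDerivAt_of_le h1.le
      (f := fun r => V r * Real.sin (2 * θ r))
      (cV.mul (Real.continuous_sin.comp_continuousOn (continuousOn_const.mul cθ))) (fun r hr => ?_)
      ((iC.const_mul _).add iG)
    have d1 := dV r (Ioo_subset_Icc_self hr)
    have d2 := ((hP.dθ r hr).const_mul 2).sin
    have d3 := d1.mul d2
    refine d3.congr_deriv ?_
    simp only [hG]
    ring
  rw [intervalIntegral.integral_add (iC.const_mul _) iG, intervalIntegral.integral_const_mul]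
    at hF
  have bG : |∫ r in r0..r1, G r| ≤ (A' + 2 * A * (|c| / r0 ^ 2)) * (r1 - r0) := by
    have h2 := intervalIntegral.norm_integral_le_of_norm_le_const (a := r0) (b := r1) (f := G)
      (C := A' + 2 * A * (|c| / r0 ^ 2)) (fun r hr => by
        rw [uIoc_of_le h1.le] at hr
        have hr' : r ∈ Icc r0 r1 := ⟨hr.1.le, hr.2⟩
        have hr0 : 0 < r := lt_trans h0 hr.1
        have b1 := bV r hr'
        have b2 := bV' r hr'
        have hA : 0 ≤ A := le_trans (abs_nonneg _) b1
        have hA' : 0 ≤ A' := le_trans (abs_nonneg _) b2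
        rw [Real.norm_eq_abs, hG]
        refine le_trans (abs_sub _ _) ?_
        have e1 : |V' r * Real.sin (2 * θ r)| ≤ A' := by
          rw [abs_mul]
          calc |V' r| * |Real.sin (2 * θ r)| ≤ A' * 1 :=
                mul_le_mul b2 (Real.abs_sin_le_one _) (abs_nonneg _) hA'
            _ = A' := mul_one _
        have e2 : |c / (ω * r ^ 2)| ≤ |c| / r0 ^ 2 := by
          rw [abs_div, abs_of_pos (show 0 < ω * r ^ 2 by positivity)]
          refine div_le_div_of_nonneg_left (abs_nonneg _) (by positivity) ?_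
          have : r0 ^ 2 ≤ r ^ 2 := by
            have := hr.1.le
            gcongr
          calc r0 ^ 2 ≤ r ^ 2 := this
            _ = 1 * r ^ 2 := (one_mul _).symm
            _ ≤ ω * r ^ 2 := by gcongr
        have e3 : |2 * V r * Real.cos (2 * θ r) * (c / (ω * r ^ 2) * Real.sin (θ r) ^ 2)| ≤
            2 * A * (|c| / r0 ^ 2) := by
          rw [abs_mul, abs_mul, abs_mul, abs_mul, abs_two, abs_pow]
          have s1 : |Real.sin (θ r)| ^ 2 ≤ 1 := by
            have := Real.abs_sin_le_one (θ r)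
            have h3 := abs_nonneg (Real.sin (θ r))
            nlinarith
          calc 2 * |V r| * |Real.cos (2 * θ r)| * (|c / (ω * r ^ 2)| * |Real.sin (θ r)| ^ 2)
              ≤ 2 * A * 1 * (|c| / r0 ^ 2 * 1) := by
                have := Real.abs_cos_le_one (2 * θ r)
                gcongr
            _ = 2 * A * (|c| / r0 ^ 2) := by ring
        linarith)
    rwa [Real.norm_eq_abs, abs_of_pos (sub_pos.2 h1)] at h2
  have hA : 0 ≤ A := le_trans (abs_nonneg _) (bV r0 ⟨le_rfl, h1.le⟩)
  have b3 : |V r1 * Real.sin (2 * θ r1)| ≤ A := by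
    rw [abs_mul]
    calc |V r1| * |Real.sin (2 * θ r1)| ≤ A * 1 :=
          mul_le_mul (bV r1 ⟨h1.le, le_rfl⟩) (Real.abs_sin_le_one _) (abs_nonneg _) hA
      _ = A := mul_one _
  have b4 : |V r0 * Real.sin (2 * θ r0)| ≤ A := by
    rw [abs_mul]
    calc |V r0| * |Real.sin (2 * θ r0)| ≤ A * 1 :=
          mul_le_mul (bV r0 ⟨le_rfl, h1.le⟩) (Real.abs_sin_le_one _) (abs_nonneg _) hA
      _ = A := mul_one _
  rw [le_div_iff₀ (by positivity)]
  have e5 : (∫ r in r0..r1, V r * Real.cos (2 * θ r)) * (2 * ω) =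
      V r1 * Real.sin (2 * θ r1) - V r0 * Real.sin (2 * θ r0) - ∫ r in r0..r1, G r := by
    linarith
  calc |∫ r in r0..r1, V r * Real.cos (2 * θ r)| * (2 * ω)
      = |(∫ r in r0..r1, V r * Real.cos (2 * θ r)) * (2 * ω)| := by
        rw [abs_mul, abs_of_pos (show 0 < 2 * ω by positivity)]
    _ ≤ |V r1 * Real.sin (2 * θ r1)| + |V r0 * Real.sin (2 * θ r0)| + |∫ r in r0..r1, G r| := by
        rw [e5]
        refine le_trans (abs_sub _ _) ?_
        have := abs_sub (V r1 * Real.sin (2 * θ r1)) (V r0 * Real.sin (2 * θ r0))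
        linarith
    _ ≤ 2 * A + (A' + 2 * A * (|c| / r0 ^ 2)) * (r1 - r0) := by linarith

/-- ASY. -/
theorem asy : AsyStmt := by
  intro c r0 r1 h0 h1
  set A : ℝ := |c| / r0 ^ 2 with hA
  set A' : ℝ := 2 * |c| / r0 ^ 3 with hA'
  set N : ℝ := 2 * A + (A' + 2 * A * (|c| / r0 ^ 2)) * (r1 - r0) with hN
  have hA0 : 0 ≤ A := by positivity
  have hA0' : 0 ≤ A' := by positivity
  have hL : 0 < r1 - r0 := sub_pos.2 h1
  have hN0 : 0 ≤ N := by positivity
  refine ⟨N + 1, by positivity, fun ω θ ρ hω hP => ?_⟩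
  have hω0 : 0 < ω := by linarith
  have h2 := trick h0 h1 hω hP (fun r => c / r ^ 2) (fun r => -(2 * c) / r ^ 3) A A'
    (fun r hr => by
      have hr0 : 0 < r := lt_of_lt_of_le h0 hr.1
      have d1 : HasDerivAt (fun r : ℝ => c / r ^ 2) _ r :=
        (hasDerivAt_const r c).div (hasDerivAt_pow 2 r) (by positivity)
      refine d1.congr_deriv ?_
      field_simp
      ring)
    (by
      refine ContinuousOn.div continuousOn_const (by fun_prop) fun r hr => ?_
      have : 0 < r := lt_of_lt_of_le h0 hr.1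
      positivity)
    (fun r hr => by
      have hr0 : 0 < r := lt_of_lt_of_le h0 hr.1
      rw [abs_div, abs_of_pos (show 0 < r ^ 2 by positivity)]
      have := hr.1
      exact div_le_div_of_nonneg_left (abs_nonneg _) (by positivity) (by gcongr))
    (fun r hr => by
      have hr0 : 0 < r := lt_of_lt_of_le h0 hr.1
      rw [abs_div, abs_of_pos (show 0 < r ^ 3 by positivity), abs_neg, abs_mul, abs_two]
      have := hr.1
      exact div_le_div_of_nonneg_left (by positivity) (by positivity) (by gcongr))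
  have cq : ContinuousOn (fun r : ℝ => c / r ^ 2) (Icc r0 r1) := by
    refine ContinuousOn.div continuousOn_const (by fun_prop) fun r hr => ?_
    have : 0 < r := lt_of_lt_of_le h0 hr.1
    positivity
  have h3 : ∫ r in r0..r1, (1 / (2 * ω)) * (c / r ^ 2 * Real.cos (2 * θ r)) =
      (θ r1 - ω * r1 - c / (2 * ω) * r1⁻¹) - (θ r0 - ω * r0 - c / (2 * ω) * r0⁻¹) := by
    refine intervalIntegral.integral_eq_sub_of_hasDerivAt_of_le h1.le
      (f := fun r => θ r - ω * r - c / (2 * ω) * r⁻¹) ?_ (fun r hr => ?_) ?_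
    · refine ContinuousOn.sub (hP.cθ.sub (by fun_prop)) (continuousOn_const.mul ?_)
      exact continuousOn_inv₀.mono fun r hr => (lt_of_lt_of_le h0 hr.1).ne'
    · have hr0 : 0 < r := lt_trans h0 hr.1
      have d1 := ((hP.dθ r hr).sub ((hasDerivAt_id r).const_mul ω)).sub
        ((hasDerivAt_inv hr0.ne').const_mul (c / (2 * ω)))
      refine d1.congr_deriv ?_
      rw [Real.cos_two_mul, Real.cos_sq']
      field_simp
      ring
    · refine ContinuousOn.intervalIntegrable_of_Icc h1.le ?_
      exact continuousOn_const.mul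
        (cq.mul (Real.continuous_cos.comp_continuousOn (continuousOn_const.mul hP.cθ)))
  rw [intervalIntegral.integral_const_mul, hP.θ0] at h3
  have h4 : θ r1 - (ω * (r1 - r0) - c * (1 / r0 - 1 / r1) / (2 * ω)) =
      (1 / (2 * ω)) * ∫ r in r0..r1, c / r ^ 2 * Real.cos (2 * θ r) := by
    rw [h3]
    have : 0 < r1 := lt_trans h0 h1
    field_simp
    ring
  rw [h4, abs_mul, abs_of_pos (show 0 < 1 / (2 * ω) by positivity)]
  calc 1 / (2 * ω) * |∫ r in r0..r1, c / r ^ 2 * Real.cos (2 * θ r)|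
      ≤ 1 / (2 * ω) * (N / (2 * ω)) := by gcongr
    _ = N / 4 / ω ^ 2 := by field_simp; ring
    _ ≤ (N + 1) / ω ^ 2 := by gcongr; linarith

end

end Pool.Agent.BE01.H72
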